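import Pool.Agent.Helper59.GP.Weyl
import Pool.Agent.Helper78.KX.Defs

/-!
# Multiples of a geometric progression with a transcendental ratio: the final statements

From the two bounds for the sums of a trigonometric polynomial (X4), the means of a trigonometric polynomial
and the Weyl sums.
-/

set_option autoImplicit false

namespace Pool.Agent.Helper4.KX

open Finset Filter Topology MeasureTheory
open Pool.Agent.Helper82.FK (e)
open Pool.Agent.Helper18.GP (gp nm lam gp_cont norm_gp_le coeff_zero)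
open Pool.Agent.Helper59.GP
open Pool.Agent.Helper78.KD (freq_of_limsup liminf_of_event dimH_finset freq_finset)
open Pool.Agent.Helper78.KX (Sm)

/-- the upper bound for the sums of a trigonometric polynomial (X4) -/
def StmtUpper (θ : ℝ) : Prop := ∀ (H : ℕ) (c : ℤ → ℂ) (p : ℝ → ℝ), (∀ t, gp H c t = p t) → c 0 = 0 → ∀ A k : ℕ,
    ∃ C δ₀ : ℝ, 0 < C ∧ 0 < δ₀ ∧ δ₀ ≤ 1 ∧ ∀ δ : ℝ, 0 < δ → δ ≤ δ₀ → ∀ t, 0 ≤ t → t ≤ A * δ → ∀ (s : ℕ → ℝ) (h : ℝ),
      dimH {x | ∃ᶠ N : ℕ in atTop, h * N ≤ Sm p θ s N x} ≤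
        ENNReal.ofReal (1 - (t * h - lam p t - C * δ ^ k) / Real.log θ)

/-- the lower bound for the sums of a trigonometric polynomial (X4) -/
def StmtLower (θ : ℝ) : Prop := ∀ (H : ℕ) (c : ℤ → ℂ) (p : ℝ → ℝ), (∀ t, gp H c t = p t) → c 0 = 0 → ∀ A k : ℕ,
    1 ≤ A → nm H c ≤ A → (∀ t, |p t| ≤ A) → (16 / (A : ℝ) ≤ ∫ t in (0 : ℝ)..1, (p t) ^ 2) →
    ∃ C δ₀ : ℝ, 0 < C ∧ 0 < δ₀ ∧ δ₀ ≤ 1 ∧ ∀ δ : ℝ, 0 < δ → δ ≤ δ₀ → ∀ (s : ℕ → ℝ) (h : ℝ), δ ≤ h → h ≤ 2 * δ → ∀ R : ℝ,
      (∀ t, 0 ≤ t → t ≤ A * δ → t * h - lam p t ≤ R) → ∀ O : Set ℝ, IsOpen O → O.Nonempty →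
      ENNReal.ofReal (1 - (R + C * δ ^ k) / Real.log θ) ≤
        dimH {x | x ∈ O ∧ ∀ᶠ N : ℕ in atTop, h * N ≤ Sm p θ s N x}

theorem gp_period (H : ℕ) (c : ℤ → ℂ) (t : ℝ) : gp H c (t + 1) = gp H c t := by
  unfold Pool.Agent.Helper18.GP.gp
  refine Finset.sum_congr rfl fun h _ => ?_
  have h1 : (h : ℝ) * (t + 1) = h * t + ((h : ℤ) : ℝ) := by ring
  rw [h1, e_add, e_int, mul_one]

theorem mean_bd {φ : ℝ → ℝ} {M : ℝ} (hM : 0 ≤ M) (hb : ∀ t, |φ t| ≤ M) (θ : ℝ) (s : ℕ → ℝ) (x : ℝ) (N : ℕ) :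
    |Sm φ θ s N x / (N : ℝ)| ≤ M := by
  unfold Pool.Agent.Helper78.KX.Sm
  rcases Nat.eq_zero_or_pos N with h | h
  · subst h
    simp [hM]
  · have hN : (0:ℝ) < N := by exact_mod_cast h
    rw [abs_div, abs_of_pos hN, div_le_iff₀ hN]
    refine (Finset.abs_sum_le_sum_abs _ _).trans ((Finset.sum_le_sum fun n _ => hb _).trans (le_of_eq ?_))
    rw [Finset.sum_const, Finset.card_range, nsmul_eq_mul]
    ring

/-- **The means of a trigonometric polynomial.** -/
theorem mult_rate_of {θ : ℝ} (hθ : 1 < θ) (hU : StmtUpper θ) (hL : StmtLower θ) (H : ℕ) (c : ℤ → ℂ) (p : ℝ → ℝ)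
    (hp : ∀ t, gp H c t = p t) (hc0 : c 0 = 0) (hne : ∃ t, p t ≠ 0) (k : ℕ) :
    ∃ C δ₀ : ℝ, 0 < C ∧ 0 < δ₀ ∧ ∀ δ : ℝ, 0 < δ → δ ≤ δ₀ → ∀ s : ℕ → ℝ,
      (∀ O : Set ℝ, IsOpen O → O.Nonempty → ENNReal.ofReal (1 - (rateL p δ + C * δ ^ k) / Real.log θ) ≤
        dimH {x | x ∈ O ∧ δ ≤ liminf (fun N : ℕ => Sm p θ s N x / N) atTop}) ∧
      dimH {x | δ ≤ limsup (fun N : ℕ => Sm p θ s N x / N) atTop} ≤
        ENNReal.ofReal (1 - (rateL p δ - C * δ ^ k) / Real.log θ) := by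
  have hlb : 0 < Real.log θ := Real.log_pos hθ
  have hpc : Continuous p := by
    have h1 : p = fun t => (gp H c t).re := by
      funext t
      rw [hp t, Complex.ofReal_re]
    rw [h1]
    exact Complex.continuous_re.comp (gp_cont H c)
  have hper : Function.Periodic p 1 := fun t => by
    have h1 := gp_period H c t
    rw [hp, hp] at h1
    exact_mod_cast h1
  obtain ⟨M, hMdef⟩ : ∃ M : ℝ, M = nm H c + 1 := ⟨_, rfl⟩
  have hnm := Pool.Agent.Helper18.GP.nm_nonneg H c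
  have hM : 1 ≤ M := by linarith
  have hb : ∀ t, |p t| ≤ M := fun t => by
    have h1 := norm_gp_le H c t
    rw [hp t, Complex.norm_real, Real.norm_eq_abs] at h1
    linarith
  have hmean : ∫ t in (0:ℝ)..1, p t = 0 := by
    have h1 := coeff_zero hp
    rw [hc0] at h1
    exact_mod_cast h1.symm
  obtain ⟨V, hVdef⟩ : ∃ V : ℝ, V = ∫ t in (0:ℝ)..1, p t ^ 2 := ⟨_, rfl⟩
  have hV0 : 0 < V := by
    rw [hVdef]
    obtain ⟨t, ht⟩ := hne
    have h2 : p (Int.fract t) = p t := by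
      have h3 := hper.sub_zsmul_eq (x := t) ⌊t⌋
      rw [zsmul_eq_mul, mul_one] at h3
      exact h3
    refine intervalIntegral.integral_pos (by norm_num) (by fun_prop) (fun x _ => sq_nonneg _)
      ⟨Int.fract t, ⟨Int.fract_nonneg t, (Int.fract_lt_one t).le⟩, ?_⟩
    rw [h2]
    positivity
  have hVM : V ≤ M ^ 2 := by
    rw [hVdef]
    have h1 : ∫ t in (0:ℝ)..1, p t ^ 2 ≤ ∫ _ in (0:ℝ)..1, M ^ 2 :=
      intervalIntegral.integral_mono_on (by norm_num) (Continuous.intervalIntegrable (by fun_prop) _ _)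
        (by simp) fun t _ => by
          rw [← sq_abs (p t)]
          exact pow_le_pow_left₀ (abs_nonneg _) (hb t) 2
    simpa using h1
  obtain ⟨B, hB⟩ : ∃ B : ℕ, 16 / V + M ≤ B := exists_nat_ge _
  obtain ⟨A, hAdef⟩ : ∃ A : ℕ, A = B + 1 := ⟨_, rfl⟩
  have hA1 : 1 ≤ A := by omega
  have hA0 : (0:ℝ) < A := by exact_mod_cast hA1
  have hBA : (B : ℝ) ≤ A := by
    rw [hAdef]
    push_cast
    linarith
  have h16V : 0 < 16 / V := by positivity
  have hAM : M ≤ A := by linarith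
  have hA16 : 16 / V ≤ A := by linarith
  have hAV : 16 ≤ A * V := by
    rwa [div_le_iff₀ hV0] at hA16
  have hAV' : 16 / (A : ℝ) ≤ V := by
    rw [div_le_iff₀ hA0]
    linarith
  obtain ⟨C₁, δ₁, hC₁, hδ₁, hδ₁1, hup⟩ := hU H c p hp hc0 A k
  obtain ⟨C₂, δ₂, hC₂, hδ₂, hδ₂1, hlow⟩ := hL H c p hp hc0 A k hA1 (by linarith) (fun t => (hb t).trans hAM) (by
    rw [← hVdef]
    exact hAV')
  obtain ⟨δ₃, hδ₃⟩ : ∃ δ₃ : ℝ, δ₃ = V ^ 2 / (32 * M ^ 3) := ⟨_, rfl⟩
  have hδ₃0 : 0 < δ₃ := by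
    rw [hδ₃]
    positivity
  refine ⟨C₁ + C₂ + A, min (min δ₁ δ₂) δ₃, by positivity, by positivity, ?_⟩
  intro δ h0 hδ s
  have d1 : δ ≤ δ₁ := hδ.trans ((min_le_left _ _).trans (min_le_left _ _))
  have d2 : δ ≤ δ₂ := hδ.trans ((min_le_left _ _).trans (min_le_right _ _))
  have d3 : δ ≤ δ₃ := hδ.trans (min_le_right _ _)
  have hδ1 : δ ≤ 1 := d1.trans hδ₁1
  have hd3 : δ * (32 * M ^ 3) ≤ V ^ 2 := by
    have h1 := mul_le_mul_of_nonneg_right d3 (show 0 ≤ 32 * M ^ 3 by positivity)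
    have h2 : δ₃ * (32 * M ^ 3) = V ^ 2 := by
      rw [hδ₃]
      field_simp
    linarith
  have hδk : 0 ≤ δ ^ k := by positivity
  obtain ⟨⟨τ, hτ0, hτA, hτ⟩, hrate⟩ := rate_attained hpc hb hM hmean hV0 hVM hVdef.le (A := A) (by linarith)
    hA0.le h0 hd3
  constructor
  · -- lower bound
    intro O hO hOne
    have h1 := hlow δ h0 d2 s δ le_rfl (by linarith) (rateL p δ) (fun t _ _ => hrate t) O hO hOne
    refine (ENNReal.ofReal_le_ofReal ?_).trans (h1.trans (dimH_mono ?_))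
    · have h2 : (rateL p δ + C₂ * δ ^ k) / Real.log θ ≤ (rateL p δ + (C₁ + C₂ + A) * δ ^ k) / Real.log θ := by
        apply div_le_div_of_nonneg_right _ hlb.le
        have h3 : 0 ≤ C₁ * δ ^ k := by positivity
        have h4 : 0 ≤ A * δ ^ k := by positivity
        linarith
      linarith
    · rintro x ⟨hx, hN⟩
      refine ⟨hx, liminf_of_event (mean_bd (by linarith) hb θ s x) ?_⟩
      filter_upwards [hN, eventually_ge_atTop 1] with N h2 h3
      have hNr : (0:ℝ) < N := by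
        have : 0 < N := by omega
        exact_mod_cast this
      rw [le_div_iff₀ hNr]
      exact h2
  · -- upper bound
    obtain ⟨η, hη⟩ : ∃ η : ℝ, η = δ ^ (k + 1) := ⟨_, rfl⟩
    have hη0 : 0 < η := by
      rw [hη]
      positivity
    have hηk : δ * η ≤ δ ^ k := by
      have h1 : δ * η = δ ^ k * δ ^ 2 := by
        rw [hη]
        ring
      rw [h1]
      have h2 : δ ^ 2 ≤ 1 := pow_le_one₀ h0.le hδ1
      nlinarith
    have h1 := hup δ h0 d1 τ hτ0 hτA s (δ - η)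
    refine (dimH_mono ?_).trans (h1.trans (ENNReal.ofReal_le_ofReal ?_))
    · intro x hls
      have h2 := freq_of_limsup (δ' := δ - η) (mean_bd (by linarith) hb θ s x) hls (by linarith)
      refine (h2.and_eventually (eventually_ge_atTop 1)).mono ?_
      rintro N ⟨h3, h4⟩
      have hNr : (0:ℝ) < N := by
        have : 0 < N := by omega
        exact_mod_cast this
      rw [lt_div_iff₀ hNr] at h3
      exact h3.le
    · have h2 : (rateL p δ - (C₁ + C₂ + A) * δ ^ k) / Real.log θ ≤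
          (τ * (δ - η) - lam p τ - C₁ * δ ^ k) / Real.log θ := by
        apply div_le_div_of_nonneg_right _ hlb.le
        have h3 : 0 ≤ C₂ * δ ^ k := by positivity
        have h4 : τ * η ≤ A * δ * η := mul_le_mul_of_nonneg_right hτA hη0.le
        have h5 : A * (δ * η) ≤ A * δ ^ k := mul_le_mul_of_nonneg_left hηk hA0.le
        rw [hτ]
        nlinarith
      linarith

/-! ### Weyl sums -/

/-- the coefficients of the cosine -/
noncomputable def cc (h : ℤ) : ℂ := if h = 1 ∨ h = -1 then 1 / 2 else 0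

theorem gp_cc (t : ℝ) : gp 1 cc t = (cs 1 t : ℂ) := by
  unfold Pool.Agent.Helper18.GP.gp cs
  have h1 : Finset.Icc (-((1 : ℕ) : ℤ)) ((1 : ℕ) : ℤ) = {-1, 0, 1} := by decide
  rw [h1]
  rw [Finset.sum_insert (by decide), Finset.sum_insert (by decide), Finset.sum_singleton]
  have h2 : cc (-1) = 1 / 2 := by simp [cc]
  have h3 : cc 0 = 0 := by simp [cc]
  have h4 : cc 1 = 1 / 2 := by simp [cc]
  rw [h2, h3, h4]
  unfold Pool.Agent.Helper82.FK.e
  push_cast
  rw [Complex.cos]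
  have h5 : ((2 * (Real.pi : ℂ) * (1 * (t : ℂ))) * Complex.I) = 2 * (Real.pi : ℂ) * (1 * t) * Complex.I := rfl
  have h6 : (2 * (Real.pi : ℂ) * (-1 * (t : ℂ))) * Complex.I = -(2 * (Real.pi : ℂ) * (1 * t)) * Complex.I := by ring
  rw [h6]
  ring

theorem cc_zero : cc 0 = 0 := by simp [cc]

/-- **Weyl sums.** -/
theorem weyl_rate_of {θ : ℝ} (hθ : 1 < θ) (hU : StmtUpper θ) (hL : StmtLower θ) (k : ℕ) :
    ∃ C δ₀ : ℝ, 0 < C ∧ 0 < δ₀ ∧ ∀ δ : ℝ, 0 < δ → δ ≤ δ₀ → ∀ s : ℕ → ℝ,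
      (∀ O : Set ℝ, IsOpen O → O.Nonempty →
        ENNReal.ofReal (1 - (rateL (fun t => Real.cos (2 * Real.pi * t)) δ + C * δ ^ k) / Real.log θ) ≤
        dimH {x | x ∈ O ∧ δ ≤ liminf (fun N : ℕ => ‖∑ n ∈ Finset.range N,
          Complex.exp (2 * Real.pi * Complex.I * (x * θ ^ (n + 1) + s n : ℝ))‖ / N) atTop}) ∧
      dimH {x | δ ≤ limsup (fun N : ℕ => ‖∑ n ∈ Finset.range N,
          Complex.exp (2 * Real.pi * Complex.I * (x * θ ^ (n + 1) + s n : ℝ))‖ / N) atTop} ≤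
        ENNReal.ofReal (1 - (rateL (fun t => Real.cos (2 * Real.pi * t)) δ - C * δ ^ k) / Real.log θ) := by
  have hpi := Real.pi_pos
  have hm : 1 ≤ 1 := le_rfl
  have hne : ∃ t, cs 1 t ≠ 0 := ⟨0, by
    unfold cs
    simp⟩
  obtain ⟨C₁, δ₁, hC₁, hδ₁, hall⟩ := mult_rate_of hθ hU hL 1 cc (cs 1) gp_cc cc_zero hne k
  refine ⟨C₁ + 16, min δ₁ (1 / 128), by positivity, by positivity, ?_⟩
  intro δ h0 hδ s
  have d1 : δ ≤ δ₁ := hδ.trans (min_le_left _ _)
  have d2 : δ ≤ 1 / 128 := hδ.trans (min_le_right _ _)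
  have hδ1 : δ ≤ 1 := by linarith
  have hlb : 0 < Real.log θ := Real.log_pos hθ
  rw [← cs_rate hm]
  simp_rw [exp_eq_e]
  -- the norm of the sum
  have hnb : ∀ x : ℝ, ∀ N : ℕ, |‖∑ n ∈ Finset.range N, e (x * θ ^ (n + 1) + s n)‖ / (N : ℝ)| ≤ 1 := by
    intro x N
    rcases Nat.eq_zero_or_pos N with h | h
    · subst h
      simp
    · have hN : (0:ℝ) < N := by exact_mod_cast h
      rw [abs_div, abs_of_pos hN, abs_of_nonneg (norm_nonneg _), div_le_iff₀ hN, one_mul]
      refine (norm_sum_le _ _).trans (le_of_eq ?_)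
      simp [e_norm]
  have hfb : ∀ (s : ℕ → ℝ) (x : ℝ) (N : ℕ), |Sm (cs 1) θ s N x / (N : ℝ)| ≤ 1 := fun s x N =>
    mean_bd zero_le_one (cs_abs_le 1) θ s x N
  constructor
  · -- lower bound
    intro O hO hOne
    refine (ENNReal.ofReal_le_ofReal ?_).trans (((hall δ h0 d1 s).1 O hO hOne).trans (dimH_mono ?_))
    · have h2 : (rateL (cs 1) δ + C₁ * δ ^ k) / Real.log θ ≤
          (rateL (cs 1) δ + (C₁ + 16) * δ ^ k) / Real.log θ := by
        apply div_le_div_of_nonneg_right _ hlb.le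
        have : 0 ≤ δ ^ k := by positivity
        linarith
      linarith
    · rintro x ⟨hx, hls⟩
      refine ⟨hx, hls.trans (liminf_le_liminf (Eventually.of_forall fun N => ?_) ?_ ?_)⟩
      · apply div_le_div_of_nonneg_right _ (Nat.cast_nonneg N)
        have h1 : Sm (cs 1) θ s N x = (∑ n ∈ Finset.range N, e (x * θ ^ (n + 1) + s n)).re := by
          unfold Pool.Agent.Helper78.KX.Sm
          rw [Complex.re_sum]
          exact Finset.sum_congr rfl fun n _ => by
            rw [cs_eq_re]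
            congr 2
            push_cast
            ring
        rw [h1]
        exact Complex.re_le_norm _
      · exact ⟨-1, by
          rw [eventually_map]
          exact Eventually.of_forall fun N => (abs_le.1 (hfb s x N)).1⟩
      · exact IsBoundedUnder.isCoboundedUnder_ge
          ⟨1, by
            rw [eventually_map]
            exact Eventually.of_forall fun N => (abs_le.1 (hnb x N)).2⟩
  · -- upper bound
    obtain ⟨η, hη⟩ : ∃ η : ℝ, η = δ ^ (k + 1) := ⟨_, rfl⟩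
    have hη0 : 0 < η := by
      rw [hη]
      positivity
    have hηδ : η ≤ δ := by
      rw [hη]
      exact pow_le_of_le_one h0.le hδ1 (by omega)
    have hηk : η ≤ δ ^ k := by
      rw [hη]
      exact pow_le_pow_of_le_one h0.le hδ1 (by omega)
    obtain ⟨δ', hδ'⟩ : ∃ δ' : ℝ, δ' = δ * (1 - η) := ⟨_, rfl⟩
    have hδ'0 : 0 < δ' := by
      rw [hδ']
      apply mul_pos h0
      linarith
    have hδ'δ : δ' ≤ δ := by
      rw [hδ']
      nlinarith
    -- comparison of the rates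
    have hcmp : rateL (cs 1) δ ≤ rateL (cs 1) δ' + 16 * δ ^ k := by
      obtain ⟨⟨τ, hτ0, hτA, hτ⟩, -⟩ := rate_attained (cs_cont 1) (cs_abs_le 1) le_rfl (cs_mean hm)
        (V := 1 / 2) (by norm_num) (by norm_num) (cs_sq hm).ge (A := 16) (by norm_num) (by norm_num) h0
        (by norm_num; linarith)
      obtain ⟨-, h2⟩ := rate_attained (cs_cont 1) (cs_abs_le 1) le_rfl (cs_mean hm)
        (V := 1 / 2) (by norm_num) (by norm_num) (cs_sq hm).ge (A := 16) (by norm_num) (by norm_num) hδ'0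
        (by norm_num; linarith)
      have h3 := h2 τ
      have h4 : τ * (δ - δ') ≤ 16 * δ ^ k := by
        have h5 : δ - δ' = δ * η := by
          rw [hδ']
          ring
        rw [h5]
        have h6 : τ * (δ * η) ≤ 16 * δ * (δ * η) := mul_le_mul_of_nonneg_right hτA (by positivity)
        have h7 : δ * (δ * η) ≤ η := by
          have : δ * δ ≤ 1 := by nlinarith
          nlinarith
        linarith
      rw [hτ]
      linarith
    -- the grid
    obtain ⟨M, hM⟩ : ∃ M : ℕ, 4 * Real.pi / η ≤ M := exists_nat_ge _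
    have hMr : (0:ℝ) < M := lt_of_lt_of_le (by positivity) hM
    have hM1 : 1 ≤ M := by
      have : 0 < M := by exact_mod_cast hMr
      omega
    have hMη : 2 * Real.pi / M ≤ η / 2 := by
      rw [div_le_iff₀ hη0] at hM
      rw [div_le_iff₀ hMr]
      linarith
    refine dimH_finset (Finset.range M) (fun j => {x | δ' ≤ limsup (fun N : ℕ =>
      Sm (cs 1) θ (fun n => s n + j / M) N x / N) atTop}) _ _ ?_ ?_
    · intro x hls
      have h1 := freq_of_limsup (δ' := δ * (1 - η / 2)) (hnb x) hls (by nlinarith [mul_pos h0 hη0])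
      have h2 : ∃ᶠ N : ℕ in atTop, ∃ j ∈ Finset.range M, δ' ≤
          Sm (cs 1) θ (fun n => s n + j / M) N x / N := by
        refine (h1.and_eventually (eventually_ge_atTop 1)).mono ?_
        rintro N ⟨h3, h4⟩
        have hNr : (0:ℝ) < N := by
          have : 0 < N := by omega
          exact_mod_cast this
        rw [lt_div_iff₀ hNr] at h3
        obtain ⟨j, hj, hjz⟩ := exists_dir (∑ n ∈ Finset.range N, e (x * θ ^ (n + 1) + s n)) hM1
        refine ⟨j, hj, ?_⟩
        rw [le_div_iff₀ hNr]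
        have h5 : (e (j / M) * ∑ n ∈ Finset.range N, e (x * θ ^ (n + 1) + s n)).re =
            Sm (cs 1) θ (fun n => s n + j / M) N x := by
          unfold Pool.Agent.Helper78.KX.Sm
          rw [Finset.mul_sum, Complex.re_sum]
          refine Finset.sum_congr rfl fun n _ => ?_
          rw [cs_eq_re, ← e_add]
          congr 2
          push_cast
          ring
        rw [← h5]
        refine le_trans ?_ hjz
        have h6 : δ * (1 - η / 2) * N * (1 - 2 * Real.pi / M) ≤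
            ‖∑ n ∈ Finset.range N, e (x * θ ^ (n + 1) + s n)‖ * (1 - 2 * Real.pi / M) :=
          mul_le_mul_of_nonneg_right h3.le (by linarith)
        refine le_trans ?_ h6
        rw [hδ']
        have h7 : 1 - η ≤ (1 - η / 2) * (1 - 2 * Real.pi / M) := by
          have h8 : (1 - η / 2) * (1 - η / 2) ≤ (1 - η / 2) * (1 - 2 * Real.pi / M) :=
            mul_le_mul_of_nonneg_left (by linarith) (by linarith)
          nlinarith [sq_nonneg (η / 2)]
        have h9 : 0 ≤ δ * N := by positivity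
        calc δ * (1 - η) * N = δ * N * (1 - η) := by ring
          _ ≤ δ * N * ((1 - η / 2) * (1 - 2 * Real.pi / M)) := mul_le_mul_of_nonneg_left h7 h9
          _ = _ := by ring
      obtain ⟨j, hj, hf⟩ := freq_finset _ _ h2
      refine ⟨j, hj, ?_⟩
      refine le_limsup_of_frequently_le hf ?_
      exact ⟨1, by
        rw [eventually_map]
        exact Eventually.of_forall fun N => (abs_le.1 (hfb _ x N)).2⟩
    · intro j _
      refine ((hall δ' hδ'0 (hδ'δ.trans d1) (fun n => s n + j / M)).2).trans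
        (ENNReal.ofReal_le_ofReal ?_)
      have h2 : (rateL (cs 1) δ - (C₁ + 16) * δ ^ k) / Real.log θ ≤
          (rateL (cs 1) δ' - C₁ * δ' ^ k) / Real.log θ := by
        apply div_le_div_of_nonneg_right _ hlb.le
        have h3 : δ' ^ k ≤ δ ^ k := pow_le_pow_left₀ hδ'0.le hδ'δ k
        have h4 := mul_le_mul_of_nonneg_left h3 hC₁.le
        linarith
      linarith

end Pool.Agent.Helper4.KX
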