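import Pool.Agent.Helper4.KX.X5
import Pool.Agent.Helper78.KX.Defs2
import Pool.Agent.Helper31.KX.Few

/-!
# Multiples of a geometric progression: from few digits to the means of a Lipschitz function and Weyl sums
-/

set_option autoImplicit false

namespace Pool.Agent.Helper4.KX

open Finset Filter Topology MeasureTheory
open Pool.Agent.Helper82.FK (e)
open Pool.Agent.Helper18.GP (gp nm lam TC lam_mono gp_cont norm_gp_le coeff_zero)
open Pool.Agent.Helper59.GP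
open Pool.Agent.Helper78.KD (freq_of_limsup liminf_of_event dimH_finset freq_finset)
open Pool.Agent.Helper78.KX (Sm Few FewAll)

/-- the upper bound (X4') -/
def UpperFew (θ : ℝ) : Prop := ∀ A k : ℕ, 1 ≤ A → ∃ (k' : ℕ) (C δ₀ : ℝ), 0 < C ∧ 0 < δ₀ ∧ δ₀ ≤ 1 ∧
    ∀ δ : ℝ, 0 < δ → δ ≤ δ₀ → ∀ (H : ℕ) (c : ℤ → ℂ) (p : ℝ → ℝ), TC A δ H c p → ∀ D : ℕ, ((D : ℝ) + 1) ^ 2 * δ ≤ 1 →
    Few θ (k' * (H + 1)) k' D → ∀ t, 0 ≤ t → t ≤ A * δ → ∀ (s : ℕ → ℝ) (h : ℝ),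
      dimH {x | ∃ᶠ N : ℕ in atTop, h * N ≤ Sm p θ s N x} ≤
        ENNReal.ofReal (1 - (t * h - lam p t - C * δ ^ k) / Real.log θ)

/-- the lower bound (X4') -/
def LowerFew (θ : ℝ) : Prop := ∀ A k : ℕ, 1 ≤ A → ∃ (k' : ℕ) (C δ₀ : ℝ), 0 < C ∧ 0 < δ₀ ∧ δ₀ ≤ 1 ∧
    ∀ δ : ℝ, 0 < δ → δ ≤ δ₀ → ∀ (H : ℕ) (c : ℤ → ℂ) (p : ℝ → ℝ), TC A δ H c p →
    16 / (A : ℝ) ≤ ∫ t in (0 : ℝ)..1, (p t) ^ 2 → ∀ D : ℕ, ((D : ℝ) + 1) ^ 2 * δ ≤ 1 →
    Few θ (k' * (H + 1)) k' D → ∀ (s : ℕ → ℝ) (h : ℝ), δ ≤ h → h ≤ 2 * δ → ∀ R : ℝ,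
      (∀ t, 0 ≤ t → t ≤ A * δ → t * h - lam p t ≤ R) → ∀ O : Set ℝ, IsOpen O → O.Nonempty →
      ENNReal.ofReal (1 - (R + C * δ ^ k) / Real.log θ) ≤
        dimH {x | x ∈ O ∧ ∀ᶠ N : ℕ in atTop, h * N ≤ Sm p θ s N x}

/-! ### one trigonometric polynomial -/

theorem few_fixed {θ : ℝ} (hθ : 1 < θ) (htr : Transcendental ℤ θ) (H k : ℕ) : ∃ D : ℕ, Few θ H k D := by
  obtain ⟨c, hc, h⟩ := Pool.Agent.Helper31.KX.few hθ htr H k
  obtain ⟨D, hD⟩ := pow_unbounded_of_one_lt ((2 * H / (θ - 1) + 1) / c) hθ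
  refine ⟨D, c, hc, ?_, h⟩
  rw [div_lt_iff₀ hc] at hD
  linarith [mul_comm (θ ^ D) c]

/-- a fixed polynomial lies in the classes -/
theorem tc_fixed {H : ℕ} {c : ℤ → ℂ} {p : ℝ → ℝ} (hp : ∀ t, gp H c t = p t) (hc0 : c 0 = 0) {A : ℕ} (hA : 1 ≤ A)
    (hnm : nm H c ≤ A) {δ : ℝ} (h0 : 0 < δ) (h1 : δ ≤ 1 / ((H : ℝ) + 1)) : TC A δ H c p := by
  have hH : (0 : ℝ) < (H : ℝ) + 1 := by positivity
  have h2 : (H : ℝ) + 1 ≤ 1 / δ := by
    rw [le_div_iff₀ hH] at h1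
    rw [le_div_iff₀ h0]
    linarith
  have h3 : 1 ≤ 1 / δ := by
    have : (0 : ℝ) ≤ H := Nat.cast_nonneg H
    linarith
  have h4 : 0 ≤ Real.log (1 / δ) := Real.log_nonneg h3
  refine ⟨hp, ?_, ?_, hc0, fun t => ?_⟩
  · calc (H : ℝ) ≤ (1 / δ) ^ 1 := by
          rw [pow_one]
          linarith
      _ ≤ (1 / δ) ^ A := pow_le_pow_right₀ h3 hA
  · have hA0 : (0 : ℝ) ≤ A := Nat.cast_nonneg A
    nlinarith
  · have h5 := norm_gp_le H c t
    rw [hp t, Complex.norm_real, Real.norm_eq_abs] at h5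
    exact h5.trans hnm

theorem stmtUpper_of_few {θ : ℝ} (hθ : 1 < θ) (htr : Transcendental ℤ θ) (hU : UpperFew θ) : StmtUpper θ := by
  intro H c p hp hc0 A k
  obtain ⟨B, hB⟩ : ∃ B : ℕ, nm H c ≤ B := exists_nat_ge _
  obtain ⟨A', hA'⟩ : ∃ A' : ℕ, A' = A + B + 1 := ⟨_, rfl⟩
  have hA1 : 1 ≤ A' := by omega
  have hAA : (A : ℝ) ≤ A' := by
    have : A ≤ A' := by omega
    exact_mod_cast this
  have hBA : (B : ℝ) ≤ A' := by
    have : B ≤ A' := by omega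
    exact_mod_cast this
  obtain ⟨k', C, δ₁, hC, hδ₁, hδ₁1, hup⟩ := hU A' k hA1
  obtain ⟨D, hD⟩ := few_fixed hθ htr (k' * (H + 1)) k'
  refine ⟨C, min δ₁ (min (1 / ((H : ℝ) + 1)) (1 / ((D : ℝ) + 1) ^ 2)), hC, by positivity,
    (min_le_left _ _).trans hδ₁1, ?_⟩
  intro δ h0 hδ t ht0 htA s h
  have d1 : δ ≤ δ₁ := hδ.trans (min_le_left _ _)
  have d2 : δ ≤ 1 / ((H : ℝ) + 1) := hδ.trans ((min_le_right _ _).trans (min_le_left _ _))
  have d3 : δ ≤ 1 / ((D : ℝ) + 1) ^ 2 := hδ.trans ((min_le_right _ _).trans (min_le_right _ _))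
  have d4 : ((D : ℝ) + 1) ^ 2 * δ ≤ 1 := by
    rw [le_div_iff₀ (by positivity)] at d3
    linarith
  exact hup δ h0 d1 H c p (tc_fixed hp hc0 hA1 (hB.trans hBA) h0 d2) D d4 hD t ht0
    (htA.trans (mul_le_mul_of_nonneg_right hAA h0.le)) s h

theorem stmtLower_of_few {θ : ℝ} (hθ : 1 < θ) (htr : Transcendental ℤ θ) (hL : LowerFew θ) : StmtLower θ := by
  intro H c p hp hc0 A k hA1 hnm hbd hV
  obtain ⟨k', C, δ₁, hC, hδ₁, hδ₁1, hlow⟩ := hL A k hA1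
  obtain ⟨D, hD⟩ := few_fixed hθ htr (k' * (H + 1)) k'
  refine ⟨C, min δ₁ (min (1 / ((H : ℝ) + 1)) (1 / ((D : ℝ) + 1) ^ 2)), hC, by positivity,
    (min_le_left _ _).trans hδ₁1, ?_⟩
  intro δ h0 hδ s h hh1 hh2 R hR O hO hOne
  have d1 : δ ≤ δ₁ := hδ.trans (min_le_left _ _)
  have d2 : δ ≤ 1 / ((H : ℝ) + 1) := hδ.trans ((min_le_right _ _).trans (min_le_left _ _))
  have d3 : δ ≤ 1 / ((D : ℝ) + 1) ^ 2 := hδ.trans ((min_le_right _ _).trans (min_le_right _ _))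
  have d4 : ((D : ℝ) + 1) ^ 2 * δ ≤ 1 := by
    rw [le_div_iff₀ (by positivity)] at d3
    linarith
  exact hlow δ h0 d1 H c p (tc_fixed hp hc0 hA1 hnm h0 d2) hV D d4 hD s h hh1 hh2 R hR O hO hOne

/-- **The means of a trigonometric polynomial.** -/
theorem trig_fa_of {θ : ℝ} (hθ : 1 < θ) (htr : Transcendental ℤ θ) (hU : UpperFew θ) (hL : LowerFew θ) (H : ℕ)
    (c : ℤ → ℂ) (p : ℝ → ℝ) (hp : ∀ t, gp H c t = p t) (hc0 : c 0 = 0) (hne : ∃ t, p t ≠ 0) (k : ℕ) :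
    ∃ C δ₀ : ℝ, 0 < C ∧ 0 < δ₀ ∧ ∀ δ : ℝ, 0 < δ → δ ≤ δ₀ → ∀ s : ℕ → ℝ,
      (∀ O : Set ℝ, IsOpen O → O.Nonempty → ENNReal.ofReal (1 - (rateL p δ + C * δ ^ k) / Real.log θ) ≤
        dimH {x | x ∈ O ∧ δ ≤ liminf (fun N : ℕ => (∑ n ∈ Finset.range N, p (x * θ ^ (n + 1) + s n)) / N) atTop}) ∧
      dimH {x | δ ≤ limsup (fun N : ℕ => (∑ n ∈ Finset.range N, p (x * θ ^ (n + 1) + s n)) / N) atTop} ≤
        ENNReal.ofReal (1 - (rateL p δ - C * δ ^ k) / Real.log θ) :=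
  mult_rate_of hθ (stmtUpper_of_few hθ htr hU) (stmtLower_of_few hθ htr hL) H c p hp hc0 hne k

/-- **Weyl sums.** -/
theorem weyl_fa_of {θ : ℝ} (hθ : 1 < θ) (htr : Transcendental ℤ θ) (hU : UpperFew θ) (hL : LowerFew θ) (k : ℕ) :
    ∃ C δ₀ : ℝ, 0 < C ∧ 0 < δ₀ ∧ ∀ δ : ℝ, 0 < δ → δ ≤ δ₀ → ∀ s : ℕ → ℝ,
      (∀ O : Set ℝ, IsOpen O → O.Nonempty →
        ENNReal.ofReal (1 - (rateL (fun t => Real.cos (2 * Real.pi * t)) δ + C * δ ^ k) / Real.log θ) ≤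
        dimH {x | x ∈ O ∧ δ ≤ liminf (fun N : ℕ => ‖∑ n ∈ Finset.range N,
          Complex.exp (2 * Real.pi * Complex.I * (x * θ ^ (n + 1) + s n : ℝ))‖ / N) atTop}) ∧
      dimH {x | δ ≤ limsup (fun N : ℕ => ‖∑ n ∈ Finset.range N,
          Complex.exp (2 * Real.pi * Complex.I * (x * θ ^ (n + 1) + s n : ℝ))‖ / N) atTop} ≤
        ENNReal.ofReal (1 - (rateL (fun t => Real.cos (2 * Real.pi * t)) δ - C * δ ^ k) / Real.log θ) :=
  weyl_rate_of hθ (stmtUpper_of_few hθ htr hU) (stmtLower_of_few hθ htr hL) k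

/-! ### Lipschitz functions -/

theorem sm_sub_le {φ p : ℝ → ℝ} {η : ℝ} (h : ∀ t, |p t - φ t| ≤ η) (θ : ℝ) (s : ℕ → ℝ) (N : ℕ) (x : ℝ) :
    |Sm p θ s N x - Sm φ θ s N x| ≤ N * η := by
  unfold Pool.Agent.Helper78.KX.Sm
  rw [← Finset.sum_sub_distrib]
  refine (Finset.abs_sum_le_sum_abs _ _).trans ((Finset.sum_le_sum fun n _ => h _).trans (le_of_eq ?_))
  rw [Finset.sum_const, Finset.card_range, nsmul_eq_mul]

/-- **The means of a Lipschitz function.** -/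
theorem mean_fa_of {θ : ℝ} (hθ : 1 < θ) (hF : FewAll θ) (hU : UpperFew θ) (hL : LowerFew θ) {φ : ℝ → ℝ} {K : ℝ}
    (hper : ∀ t, φ (t + 1) = φ t) (hlip : ∀ s t, |φ s - φ t| ≤ K * |s - t|) (hmean : ∫ t in (0:ℝ)..1, φ t = 0)
    (hne : ∃ t, φ t ≠ 0) (k : ℕ) :
    ∃ C δ₀ : ℝ, 0 < C ∧ 0 < δ₀ ∧ ∀ δ : ℝ, 0 < δ → δ ≤ δ₀ → ∀ s : ℕ → ℝ,
      (∀ O : Set ℝ, IsOpen O → O.Nonempty → ENNReal.ofReal (1 - (rateL φ δ + C * δ ^ k) / Real.log θ) ≤
        dimH {x | x ∈ O ∧ δ ≤ liminf (fun N : ℕ => (∑ n ∈ Finset.range N, φ (x * θ ^ (n + 1) + s n)) / N) atTop}) ∧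
      dimH {x | δ ≤ limsup (fun N : ℕ => (∑ n ∈ Finset.range N, φ (x * θ ^ (n + 1) + s n)) / N) atTop} ≤
        ENNReal.ofReal (1 - (rateL φ δ - C * δ ^ k) / Real.log θ) := by
  have hlb : 0 < Real.log θ := Real.log_pos hθ
  have hK := lip_K hlip
  have hφ := lip_cont hlip
  obtain ⟨M, hMdef⟩ : ∃ M : ℝ, M = |φ 0| + K + 1 := ⟨_, rfl⟩
  have hM : 1 ≤ M := by
    have := abs_nonneg (φ 0)
    linarith
  have hb : ∀ t, |φ t| ≤ M := fun t => by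
    have := phi_bd hper hlip hK t
    linarith
  obtain ⟨V, hVdef⟩ : ∃ V : ℝ, V = ∫ t in (0:ℝ)..1, φ t ^ 2 := ⟨_, rfl⟩
  have hV0 : 0 < V := by
    rw [hVdef]
    obtain ⟨t, ht⟩ := hne
    have h1 : Function.Periodic φ 1 := hper
    have h2 : φ (Int.fract t) = φ t := by
      have h3 := h1.sub_zsmul_eq (x := t) ⌊t⌋
      rw [zsmul_eq_mul, mul_one] at h3
      exact h3
    refine intervalIntegral.integral_pos (by norm_num) (by fun_prop) (fun x _ => sq_nonneg _)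
      ⟨Int.fract t, ⟨Int.fract_nonneg t, (Int.fract_lt_one t).le⟩, ?_⟩
    rw [h2]
    positivity
  have hVM : V ≤ M ^ 2 := by
    rw [hVdef]
    have h1 : ∫ t in (0:ℝ)..1, φ t ^ 2 ≤ ∫ _ in (0:ℝ)..1, M ^ 2 :=
      intervalIntegral.integral_mono_on (by norm_num) (Continuous.intervalIntegrable (by fun_prop) _ _)
        (by simp) fun t _ => by
          rw [← sq_abs (φ t)]
          exact pow_le_pow_left₀ (abs_nonneg _) (hb t) 2
    simpa using h1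
  obtain ⟨A', hA'1, hA'⟩ := lip_approx hper hlip hmean
  obtain ⟨B, hB⟩ : ∃ B : ℕ, 32 / V ≤ B := exists_nat_ge _
  obtain ⟨A, hAdef⟩ : ∃ A : ℕ, A = A' * (k + 2) + B + 1 := ⟨_, rfl⟩
  have hA1 : 1 ≤ A := by omega
  have hA32 : 32 / V ≤ A := hB.trans (by
    rw [hAdef]
    push_cast
    have : (0:ℝ) ≤ A' * (k + 2) := by positivity
    linarith)
  have hA0 : (0:ℝ) < A := by exact_mod_cast hA1
  have hAV : 32 ≤ A * V := by
    rwa [div_le_iff₀ hV0] at hA32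
  obtain ⟨k₁, C₁, δ₁, hC₁, hδ₁, _, hup⟩ := hU A k hA1
  obtain ⟨k₂, C₂, δ₂, hC₂, hδ₂, _, hlow⟩ := hL A k hA1
  obtain ⟨δ₅, hδ₅, hF₁⟩ := hF k₁ A
  obtain ⟨δ₆, hδ₆, hF₂⟩ := hF k₂ A
  obtain ⟨δ₃, hδ₃⟩ : ∃ δ₃ : ℝ, δ₃ = V ^ 2 / (32 * M ^ 3) := ⟨_, rfl⟩
  have hδ₃0 : 0 < δ₃ := by
    rw [hδ₃]
    positivity
  obtain ⟨δ₄, hδ₄⟩ : ∃ δ₄ : ℝ, δ₄ = V / (4 * M) := ⟨_, rfl⟩
  have hδ₄0 : 0 < δ₄ := by
    rw [hδ₄]
    positivity
  refine ⟨C₁ + C₂ + 3 * A, min (min (min δ₁ δ₂) (min δ₅ δ₆)) (min (min δ₃ δ₄) (1 / 4)), by positivity,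
    by positivity, ?_⟩
  intro δ h0 hδ s
  have d12 : δ ≤ min (min δ₁ δ₂) (min δ₅ δ₆) := hδ.trans (min_le_left _ _)
  have d1 : δ ≤ δ₁ := d12.trans ((min_le_left _ _).trans (min_le_left _ _))
  have d2 : δ ≤ δ₂ := d12.trans ((min_le_left _ _).trans (min_le_right _ _))
  have d6 : δ ≤ δ₅ := d12.trans ((min_le_right _ _).trans (min_le_left _ _))
  have d7 : δ ≤ δ₆ := d12.trans ((min_le_right _ _).trans (min_le_right _ _))
  have d3 : δ ≤ δ₃ := hδ.trans ((min_le_right _ _).trans ((min_le_left _ _).trans (min_le_left _ _)))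
  have d4 : δ ≤ δ₄ := hδ.trans ((min_le_right _ _).trans ((min_le_left _ _).trans (min_le_right _ _)))
  have d5 : δ ≤ 1 / 4 := hδ.trans ((min_le_right _ _).trans (min_le_right _ _))
  have hδ1 : δ ≤ 1 := by linarith
  obtain ⟨η, hη⟩ : ∃ η : ℝ, η = δ ^ (k + 1 + 1) := ⟨_, rfl⟩
  have hη0 : 0 < η := by
    rw [hη]
    positivity
  have hηk : δ * η ≤ δ ^ k := by
    have h1 : δ * η = δ ^ k * (δ ^ 3) := by
      rw [hη]
      ring
    rw [h1]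
    have h2 : δ ^ 3 ≤ 1 := pow_le_one₀ h0.le hδ1
    have h3 : 0 ≤ δ ^ k := by positivity
    nlinarith
  have hη2 : 2 * η ≤ δ := by
    have h1 : η ≤ δ ^ 2 := by
      rw [hη]
      exact pow_le_pow_of_le_one h0.le hδ1 (by omega)
    nlinarith
  have hη12 : η ≤ 1 / 2 := by linarith
  obtain ⟨H, c, p, hTC0, hpφ⟩ := hA' η hη0 hη12
  have hTC : TC A δ H c p := hTC0.scale (k := k + 1) hη h0 hδ1 (by
    rw [hAdef]
    have : A' * (k + 1 + 1) = A' * (k + 2) := rfl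
    omega)
  obtain ⟨D₁, hD₁, hfew₁⟩ := hF₁ δ h0 d6 H hTC.deg
  obtain ⟨D₂, hD₂, hfew₂⟩ := hF₂ δ h0 d7 H hTC.deg
  have hpc := hTC.cont
  have hd3 : δ * (32 * M ^ 3) ≤ V ^ 2 := by
    have h1 := mul_le_mul_of_nonneg_right d3 (show 0 ≤ 32 * M ^ 3 by positivity)
    have h2 : δ₃ * (32 * M ^ 3) = V ^ 2 := by
      rw [hδ₃]
      field_simp
    linarith
  obtain ⟨⟨τ, hτ0, hτA, hτ⟩, hrate⟩ := rate_attained hφ hb hM hmean hV0 hVM hVdef.le (A := A) (by linarith)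
    hA0.le h0 hd3
  have hAη : ∀ θ' : ℝ, θ' ≤ A * δ → 3 * (θ' * η) ≤ 3 * A * δ ^ k := by
    intro θ' h1
    have h2 := mul_le_mul_of_nonneg_right h1 hη0.le
    have h3 := mul_le_mul_of_nonneg_left hηk hA0.le
    nlinarith
  have hfb : ∀ x : ℝ, ∀ N : ℕ, |(∑ n ∈ Finset.range N, φ (x * θ ^ (n + 1) + s n)) / (N : ℝ)| ≤ M := fun x N =>
    mean_bd (by linarith) hb θ s x N
  constructor
  · -- lower bound
    intro O hO hOne
    have hp2 : 16 / (A : ℝ) ≤ ∫ t in (0:ℝ)..1, (p t) ^ 2 := by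
      have h1 : ∀ t, φ t ^ 2 - 2 * M * η ≤ p t ^ 2 := by
        intro t
        have h2 := abs_le.1 (hpφ t)
        have h3 := abs_le.1 (hb t)
        have h4 : p t ^ 2 = φ t ^ 2 + 2 * φ t * (p t - φ t) + (p t - φ t) ^ 2 := by ring
        have h5 : |φ t * (p t - φ t)| ≤ M * η := by
          rw [abs_mul]
          exact mul_le_mul (hb t) (hpφ t) (abs_nonneg _) (by linarith)
        have h6 := (abs_le.1 h5).1
        nlinarith [sq_nonneg (p t - φ t)]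
      have h2 : ∫ t in (0:ℝ)..1, (φ t ^ 2 - 2 * M * η) ≤ ∫ t in (0:ℝ)..1, p t ^ 2 :=
        intervalIntegral.integral_mono_on (by norm_num) (Continuous.intervalIntegrable (by fun_prop) _ _)
          (Continuous.intervalIntegrable (by fun_prop) _ _) fun t _ => h1 t
      rw [intervalIntegral.integral_sub (Continuous.intervalIntegrable (by fun_prop) _ _) (by simp),
        ← hVdef] at h2
      simp only [intervalIntegral.integral_const, sub_zero, smul_eq_mul, one_mul] at h2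
      have h3 : 2 * M * η ≤ V / 4 := by
        have h4 : M * (4 * δ) ≤ V := by
          have h5 := mul_le_mul_of_nonneg_right d4 (show 0 ≤ 4 * M by positivity)
          have h6 : δ₄ * (4 * M) = V := by
            rw [hδ₄]
            field_simp
          nlinarith
        nlinarith
      have h4 : 16 / (A : ℝ) ≤ V / 2 := by
        rw [div_le_div_iff₀ hA0 (by norm_num)]
        linarith
      linarith
    have h1 := hlow δ h0 d2 H c p hTC hp2 D₂ hD₂ hfew₂ s (δ + 2 * η) (by linarith) (by linarith)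
      (rateL φ δ + 3 * A * δ ^ k) (by
        intro θ' h2 h3
        have h4 := lam_mono hφ hpc (η := η) (fun t => by
          have := (abs_le.1 (hpφ t)).1
          linarith) h2
        have h5 := hrate θ'
        have h6 := hAη θ' h3
        nlinarith) O hO hOne
    refine (ENNReal.ofReal_le_ofReal ?_).trans (h1.trans (dimH_mono ?_))
    · have h2 : (rateL φ δ + 3 * A * δ ^ k + C₂ * δ ^ k) / Real.log θ ≤
          (rateL φ δ + (C₁ + C₂ + 3 * A) * δ ^ k) / Real.log θ := by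
        apply div_le_div_of_nonneg_right _ hlb.le
        have : 0 ≤ C₁ * δ ^ k := by positivity
        linarith
      linarith
    · rintro x ⟨hx, hN⟩
      refine ⟨hx, liminf_of_event (hfb x) ?_⟩
      filter_upwards [hN, eventually_ge_atTop 1] with N h2 h3
      have hNr : (0:ℝ) < N := by
        have : 0 < N := by omega
        exact_mod_cast this
      rw [le_div_iff₀ hNr]
      have h4 := (abs_le.1 (sm_sub_le hpφ θ s N x)).2
      have h5 : Sm φ θ s N x = ∑ n ∈ Finset.range N, φ (x * θ ^ (n + 1) + s n) := rfl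
      rw [← h5]
      have h6 : 0 ≤ N * η := by positivity
      nlinarith
  · -- upper bound
    have h1 := hup δ h0 d1 H c p hTC D₁ hD₁ hfew₁ τ hτ0 hτA s (δ - 2 * η)
    refine (dimH_mono ?_).trans (h1.trans (ENNReal.ofReal_le_ofReal ?_))
    · intro x hls
      have h2 := freq_of_limsup (δ' := δ - η) (hfb x) hls (by linarith)
      refine (h2.and_eventually (eventually_ge_atTop 1)).mono ?_
      rintro N ⟨h3, h4⟩
      have hNr : (0:ℝ) < N := by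
        have : 0 < N := by omega
        exact_mod_cast this
      rw [lt_div_iff₀ hNr] at h3
      have h5 := (abs_le.1 (sm_sub_le hpφ θ s N x)).1
      have h6 : Sm φ θ s N x = ∑ n ∈ Finset.range N, φ (x * θ ^ (n + 1) + s n) := rfl
      rw [← h6] at h3
      nlinarith
    · have h2 : (rateL φ δ - (C₁ + C₂ + 3 * A) * δ ^ k) / Real.log θ ≤
          (τ * (δ - 2 * η) - lam p τ - C₁ * δ ^ k) / Real.log θ := by
        apply div_le_div_of_nonneg_right _ hlb.le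
        have h3 := lam_mono hpc hφ (η := η) (fun t => by
          have := (abs_le.1 (hpφ t)).2
          linarith) hτ0
        have h4 := hAη τ hτA
        have : 0 ≤ C₂ * δ ^ k := by positivity
        rw [hτ]
        nlinarith
      linarith

end Pool.Agent.Helper4.KX
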